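import Pool.Agent.Helper72.MK.GoalsT

/-!
# Packet MK-TT: the topological theorem
-/

open MeasureTheory Set Filter Topology
open scoped ENNReal Quaternion

noncomputable section

namespace Pool.Agent.Helper16.MK

open Pool.Agent.Helper72.MK

theorem norm_one_of {g : ℍ[ℝ]} (h : g.re ^ 2 + g.imI ^ 2 + g.imJ ^ 2 + g.imK ^ 2 = 1) : ‖g‖ = 1 := by
  have h1 : Quaternion.normSq g = 1 := by rw [Quaternion.normSq_def', h]
  rw [Quaternion.normSq_eq_norm_mul_self] at h1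
  have h2 := norm_nonneg g
  nlinarith

theorem sq2 : ((√2)⁻¹ : ℝ) * (√2)⁻¹ = 1 / 2 := by
  rw [← mul_inv, Real.mul_self_sqrt (by norm_num : (0 : ℝ) ≤ 2)]
  norm_num

theorem norm_qi : ‖qi‖ = 1 := norm_one_of (by simp [qi])
theorem norm_qj : ‖qj‖ = 1 := norm_one_of (by simp [qj])
theorem norm_qk : ‖qk‖ = 1 := norm_one_of (by simp [qk])
theorem norm_om : ‖om‖ = 1 := by
  apply norm_one_of
  have := sq2
  simp only [om]
  nlinarith

theorem om_om : om * om = qk := by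
  have := sq2
  ext <;> simp [om, qk] <;> nlinarith

theorem qk_qi : qk * qi = qj := by ext <;> simp [qi, qj, qk]
theorem qi_qi : qi * qi = -1 := by ext <;> simp [qi]
theorem qi_qj : qi * qj = qk := by ext <;> simp [qi, qj, qk]
theorem qj_qi : qj * qi = -qk := by ext <;> simp [qi, qj, qk]
theorem qi_nqj : qi * (-qj) = -qk := by rw [mul_neg, qi_qj]
theorem qi_om : qi * om = om * (-qj) := by ext <;> simp [qi, qj, om]

theorem mem_mul {g h : ℍ[ℝ]} (hg : g ∈ SS ℍ[ℝ]) (hh : ‖h‖ = 1) : g * h ∈ SS ℍ[ℝ] := by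
  have h1 : ‖g‖ = 1 := hg
  change ‖g * h‖ = 1
  rw [norm_mul, h1, hh, mul_one]

theorem cont_mul (h : ℍ[ℝ]) : Continuous fun g : ℍ[ℝ] => g * h := continuous_id.mul continuous_const

theorem cont_comp {X : Type} [TopologicalSpace X] {s : ℍ[ℝ] → X} (hs : ContinuousOn s (SS ℍ[ℝ]))
    {h : ℍ[ℝ]} (hh : ‖h‖ = 1) : ContinuousOn (fun g => s (g * h)) (SS ℍ[ℝ]) :=
  hs.comp (cont_mul h).continuousOn fun _ hg => mem_mul hg hh

theorem cont_fr {s t : ℍ[ℝ] → ℂ × ℂ} (hs : ContinuousOn s (SS ℍ[ℝ]))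
    (ht : ContinuousOn t (SS ℍ[ℝ])) (h0 : ∀ g ∈ SS ℍ[ℝ], s g ≠ 0) :
    ContinuousOn (fun g => fr (s g) (t g)) (SS ℍ[ℝ]) := by
  have s1 : ContinuousOn (fun g => (s g).1) (SS ℍ[ℝ]) := continuous_fst.comp_continuousOn hs
  have s2 : ContinuousOn (fun g => (s g).2) (SS ℍ[ℝ]) := continuous_snd.comp_continuousOn hs
  have t1 : ContinuousOn (fun g => (t g).1) (SS ℍ[ℝ]) := continuous_fst.comp_continuousOn ht
  have t2 : ContinuousOn (fun g => (t g).2) (SS ℍ[ℝ]) := continuous_snd.comp_continuousOn ht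
  unfold fr
  refine ContinuousOn.div ?_ ?_ ?_
  · exact ((continuous_star.comp_continuousOn s1).mul t1).add
      ((continuous_star.comp_continuousOn s2).mul t2)
  · exact Complex.continuous_ofReal.comp_continuousOn ((s1.norm.pow 2).add (s2.norm.pow 2))
  · intro g hg h
    have h1 : ‖(s g).1‖ ^ 2 + ‖(s g).2‖ ^ 2 = 0 := by exact_mod_cast h
    have h2 : ‖(s g).1‖ = 0 := by nlinarith [sq_nonneg ‖(s g).1‖, sq_nonneg ‖(s g).2‖]
    have h3 : ‖(s g).2‖ = 0 := by nlinarith [sq_nonneg ‖(s g).1‖, sq_nonneg ‖(s g).2‖]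
    exact h0 g hg (Prod.ext (norm_eq_zero.1 h2) (norm_eq_zero.1 h3))

theorem cont_dt {s t : ℍ[ℝ] → ℂ × ℂ} (hs : ContinuousOn s (SS ℍ[ℝ]))
    (ht : ContinuousOn t (SS ℍ[ℝ])) : ContinuousOn (fun g => dt (s g) (t g)) (SS ℍ[ℝ]) := by
  have s1 : ContinuousOn (fun g => (s g).1) (SS ℍ[ℝ]) := continuous_fst.comp_continuousOn hs
  have s2 : ContinuousOn (fun g => (s g).2) (SS ℍ[ℝ]) := continuous_snd.comp_continuousOn hs
  have t1 : ContinuousOn (fun g => (t g).1) (SS ℍ[ℝ]) := continuous_fst.comp_continuousOn ht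
  have t2 : ContinuousOn (fun g => (t g).2) (SS ℍ[ℝ]) := continuous_snd.comp_continuousOn ht
  exact (s1.mul t2).sub (s2.mul t1)

theorem dt_smul_left (a : ℂ) (s t : ℂ × ℂ) : dt (a • s) t = a * dt s t := by
  simp only [dt, Prod.smul_fst, Prod.smul_snd, smul_eq_mul]; ring

theorem dt_smul_right (a : ℂ) (s t : ℂ × ℂ) : dt s (a • t) = a * dt s t := by
  simp only [dt, Prod.smul_fst, Prod.smul_snd, smul_eq_mul]; ring

theorem dt_swap (s t : ℂ × ℂ) : dt s t = -dt t s := by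
  simp only [dt]; ring

theorem tt (hSEC : SEC2Stmt) (hEIG : EIGStmt) (hAVG : AVGStmt) : TTStmt := by
  intro D hD hom hqi
  by_contra hcon
  push Not at hcon
  obtain ⟨-, e2, e3, -, -⟩ := hEIG
  -- invariance
  have dk : ∀ g ∈ SS ℍ[ℝ], D (g * qk) = D g := by
    intro g hg
    rw [← om_om, ← mul_assoc, hom _ (mem_mul hg norm_om), hom g hg, neg_neg]
  have dj : ∀ g ∈ SS ℍ[ℝ], D (g * qj) = D g := by
    intro g hg
    rw [← qk_qi, ← mul_assoc, hqi _ (mem_mul hg norm_qk), dk g hg]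
  have dn : ∀ g ∈ SS ℍ[ℝ], D (-g) = D g := by
    intro g hg
    have h1 : -g = g * qi * qi := by rw [mul_assoc, qi_qi, mul_neg, mul_one]
    rw [h1, hqi _ (mem_mul hg norm_qi), hqi g hg]
  have dnj : ∀ g ∈ SS ℍ[ℝ], D (g * -qj) = D g := by
    intro g hg
    rw [mul_neg, dn _ (mem_mul hg norm_qj), dj g hg]
  have dnk : ∀ g ∈ SS ℍ[ℝ], D (g * -qk) = D g := by
    intro g hg
    rw [mul_neg, dn _ (mem_mul hg norm_qk), dk g hg]
  have nnj : ‖-qj‖ = 1 := by rw [norm_neg, norm_qj]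
  have nnk : ‖-qk‖ = 1 := by rw [norm_neg, norm_qk]
  have hfr : 4 ≤ Module.finrank ℝ ℍ[ℝ] := by rw [Quaternion.finrank_eq_four]
  obtain ⟨s, hs, hsE⟩ := hSEC ℍ[ℝ] hfr D hD hcon
  have hs0 : ∀ g ∈ SS ℍ[ℝ], s g ≠ 0 := fun g hg => (hsE g hg).1
  -- the factors
  have key : ∀ h : ℍ[ℝ], ‖h‖ = 1 → (∀ g ∈ SS ℍ[ℝ], D (g * h) = D g) →
      ContinuousOn (fun g => fr (s g) (s (g * h))) (SS ℍ[ℝ]) ∧
      ∀ g ∈ SS ℍ[ℝ], fr (s g) (s (g * h)) ≠ 0 ∧ s (g * h) = fr (s g) (s (g * h)) • s g := by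
    intro h hh hDh
    refine ⟨cont_fr hs (cont_comp hs hh) hs0, fun g hg => ?_⟩
    have h1 := hsE _ (mem_mul hg hh)
    rw [hDh g hg] at h1
    exact e2 (D g) (s g) (s (g * h)) (hcon g hg) (hsE g hg) h1
  obtain ⟨ci, ki⟩ := key qi norm_qi hqi
  obtain ⟨cj, kj⟩ := key qj norm_qj dj
  obtain ⟨cnj, knj⟩ := key (-qj) nnj dnj
  obtain ⟨ck, kk⟩ := key qk norm_qk dk
  obtain ⟨cnk, knk⟩ := key (-qk) nnk dnk
  have hprod : ∀ (g a b c : ℍ[ℝ]), g ∈ SS ℍ[ℝ] → a * b = c →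
      s (g * a) = fr (s g) (s (g * a)) • s g →
      s (g * a * b) = fr (s (g * a)) (s (g * a * b)) • s (g * a) →
      s (g * c) = fr (s g) (s (g * c)) • s g →
      fr (s g) (s (g * a)) * fr (s (g * a)) (s (g * a * b)) = fr (s g) (s (g * c)) := by
    intro g a b c hg hab h1 h2 h3
    have h4 : (fr (s (g * a)) (s (g * a * b)) * fr (s g) (s (g * a))) • s g =
        fr (s g) (s (g * c)) • s g := by
      rw [mul_smul, ← h1, ← h2, ← h3, mul_assoc, hab]
    have h5 := smul_left_injective ℂ (hs0 g hg) h4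
    rw [mul_comm]
    exact h5
  refine hAVG (fun g => fr (s g) (s (g * qi))) (fun g => fr (s g) (s (g * qj)))
    (fun g => fr (s g) (s (g * -qj))) (fun g => fr (s g) (s (g * qk)))
    (fun g => fr (s g) (s (g * -qk))) (fun g => dt (s g) (s (g * om)))
    ⟨ci, cj, cnj, ck, cnk, cont_dt hs (cont_comp hs norm_om)⟩ ?_ ?_
  · intro g hg
    refine ⟨(ki g hg).1, (kj g hg).1, (knj g hg).1, (kk g hg).1, (knk g hg).1, ?_⟩
    have h1 := hsE _ (mem_mul hg norm_om)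
    rw [hom g hg] at h1
    exact e3 (D g) (s g) (s (g * om)) (hcon g hg) (hsE g hg) h1
  · intro g hg
    have gi := mem_mul hg norm_qi
    have gj := mem_mul hg norm_qj
    have go := mem_mul hg norm_om
    refine ⟨?_, ?_, ?_, ?_, ?_⟩
    · exact hprod g qi qj qk hg qi_qj (ki g hg).2 (kj _ gi).2 (kk g hg).2
    · exact hprod g qj qi (-qk) hg qj_qi (kj g hg).2 (ki _ gj).2 (knk g hg).2
    · exact hprod g qi (-qj) (-qk) hg qi_nqj (ki g hg).2 (knj _ gi).2 (knk g hg).2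
    · change dt (s (g * om)) (s (g * om * om)) = -(fr (s g) (s (g * qk))) * dt (s g) (s (g * om))
      have h1 : s (g * om * om) = fr (s g) (s (g * qk)) • s g := by
        rw [mul_assoc, om_om]; exact (kk g hg).2
      rw [h1, dt_smul_right, dt_swap (s (g * om))]
      ring
    · change dt (s (g * qi)) (s (g * qi * om)) =
        fr (s g) (s (g * qi)) * fr (s (g * om)) (s (g * om * -qj)) * dt (s g) (s (g * om))
      have h1 : s (g * qi * om) = fr (s (g * om)) (s (g * om * -qj)) • s (g * om) := by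
        rw [mul_assoc, qi_om, ← mul_assoc]; exact (knj _ go).2
      have h2 := (ki g hg).2
      rw [h1, dt_smul_right]
      have h3 : dt (s (g * qi)) (s (g * om)) =
          fr (s g) (s (g * qi)) * dt (s g) (s (g * om)) := by
        rw [← dt_smul_left, ← h2]
      rw [h3]
      ring

end Pool.Agent.Helper16.MK
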